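import Pool.Agent.T9h14.BQ.Grp

/-!
# Nonnegative biquadratic forms in two and two variables
-/

set_option autoImplicit false

namespace Pool.Agent.T9h14.BQ

/-- positive semidefinite binary forms -/
lemma biq_psd {a b c : ℝ} (h : ∀ u v : ℝ, 0 ≤ a * u ^ 2 + 2 * b * (u * v) + c * v ^ 2) :
    0 ≤ a ∧ 0 ≤ c ∧ b ^ 2 ≤ a * c := by
  have h1 := h 1 0
  have h2 := h 0 1
  have ha : 0 ≤ a := by linarith
  have hc : 0 ≤ c := by linarith
  refine ⟨ha, hc, ?_⟩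
  have h3 := h b (-a)
  have h4 := h (-c) b
  have e3 : 0 ≤ a * (a * c - b ^ 2) := by nlinarith
  have e4 : 0 ≤ c * (a * c - b ^ 2) := by nlinarith
  by_contra hlt
  push Not at hlt
  have hd : a * c - b ^ 2 < 0 := by linarith
  have ha0 : a = 0 := by
    by_contra hne
    have : 0 < a := lt_of_le_of_ne ha (Ne.symm hne)
    nlinarith
  have hc0 : c = 0 := by
    by_contra hne
    have : 0 < c := lt_of_le_of_ne hc (Ne.symm hne)
    nlinarith
  subst ha0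
  subst hc0
  have h5 := h b (-1)
  have hb : b ≠ 0 := by
    intro hb
    subst hb
    simp at hd
  have : 0 < b ^ 2 := by positivity
  nlinarith

lemma sq_le_two {a c p q b d : ℝ} (ha : 0 ≤ a) (hc : 0 ≤ c) (hp : 0 ≤ p) (hq : 0 ≤ q)
    (h1 : b ^ 2 ≤ a * c) (h2 : d ^ 2 ≤ p * q) : 2 * (b * d) ≤ a * q + p * c := by
  have h3 : (b * d) ^ 2 ≤ (a * q) * (p * c) := by
    have : (b * d) ^ 2 = b ^ 2 * d ^ 2 := by ring
    rw [this]
    have := mul_le_mul h1 h2 (sq_nonneg d) (by positivity)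
    nlinarith
  have h4 : 0 ≤ a * q := by positivity
  have h5 : 0 ≤ p * c := by positivity
  have h6 : (2 * (b * d)) ^ 2 ≤ (a * q + p * c) ^ 2 := by nlinarith [sq_nonneg (a * q - p * c)]
  exact le_of_sq_le_sq h6 (by positivity)
where
  le_of_sq_le_sq {x y : ℝ} (h : x ^ 2 ≤ y ^ 2) (hy : 0 ≤ y) : x ≤ y :=
    (le_abs_self x).trans (abs_le_of_sq_le_sq h hy)

/-- **The double discriminant of a nonnegative biquadratic form in two and two variables.** -/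
theorem biq22 {a11 a12 a22 b11 b12 b22 c11 c12 c22 : ℝ}
    (h : ∀ s t u v : ℝ, 0 ≤ s ^ 2 * (a11 * u ^ 2 + 2 * a12 * (u * v) + a22 * v ^ 2) +
      2 * (s * t) * (b11 * u ^ 2 + 2 * b12 * (u * v) + b22 * v ^ 2) +
      t ^ 2 * (c11 * u ^ 2 + 2 * c12 * (u * v) + c22 * v ^ 2)) :
    2 * (b11 * b22 - b12 ^ 2) ≤ a11 * c22 + a22 * c11 - 2 * (a12 * c12) := by
  have hA : ∀ u v : ℝ, 0 ≤ a11 * u ^ 2 + 2 * a12 * (u * v) + a22 * v ^ 2 := fun u v => by
    have := h 1 0 u v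
    linarith
  have hC : ∀ u v : ℝ, 0 ≤ c11 * u ^ 2 + 2 * c12 * (u * v) + c22 * v ^ 2 := fun u v => by
    have := h 0 1 u v
    linarith
  have hB : ∀ u v : ℝ, (b11 * u ^ 2 + 2 * b12 * (u * v) + b22 * v ^ 2) ^ 2 ≤
      (a11 * u ^ 2 + 2 * a12 * (u * v) + a22 * v ^ 2) *
        (c11 * u ^ 2 + 2 * c12 * (u * v) + c22 * v ^ 2) := fun u v =>
    (biq_psd (fun s t => by
      have := h s t u v
      nlinarith)).2.2
  -- in a basis in which two of the forms are diagonal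
  have key : ∀ p1 p2 q1 q2 : ℝ, p1 * q2 - p2 * q1 ≠ 0 →
      a11 * (p1 * q1) + a12 * (p1 * q2 + p2 * q1) + a22 * (p2 * q2) = 0 →
      b11 * (p1 * q1) + b12 * (p1 * q2 + p2 * q1) + b22 * (p2 * q2) = 0 →
      2 * (b11 * b22 - b12 ^ 2) ≤ a11 * c22 + a22 * c11 - 2 * (a12 * c12) := by
    intro p1 p2 q1 q2 hd hA0 hB0
    have e1 := sq_le_two (hA p1 p2) (hC p1 p2) (hA q1 q2) (hC q1 q2) (hB p1 p2) (hB q1 q2)
    have hd2 : 0 < (p1 * q2 - p2 * q1) ^ 2 := by positivity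
    have e2 : (b11 * p1 ^ 2 + 2 * b12 * (p1 * p2) + b22 * p2 ^ 2) *
        (b11 * q1 ^ 2 + 2 * b12 * (q1 * q2) + b22 * q2 ^ 2) =
        (p1 * q2 - p2 * q1) ^ 2 * (b11 * b22 - b12 ^ 2) := by
      linear_combination (b11 * (p1 * q1) + b12 * (p1 * q2 + p2 * q1) + b22 * (p2 * q2)) * hB0
    have e3 : (a11 * p1 ^ 2 + 2 * a12 * (p1 * p2) + a22 * p2 ^ 2) *
        (c11 * q1 ^ 2 + 2 * c12 * (q1 * q2) + c22 * q2 ^ 2) +
        (a11 * q1 ^ 2 + 2 * a12 * (q1 * q2) + a22 * q2 ^ 2) *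
        (c11 * p1 ^ 2 + 2 * c12 * (p1 * p2) + c22 * p2 ^ 2) =
        (p1 * q2 - p2 * q1) ^ 2 * (a11 * c22 + a22 * c11 - 2 * (a12 * c12)) := by
      linear_combination 2 * (c11 * (p1 * q1) + c12 * (p1 * q2 + p2 * q1) + c22 * (p2 * q2)) * hA0
    rw [e2, e3] at e1
    have e4 : (p1 * q2 - p2 * q1) ^ 2 * (2 * (b11 * b22 - b12 ^ 2)) ≤
        (p1 * q2 - p2 * q1) ^ 2 * (a11 * c22 + a22 * c11 - 2 * (a12 * c12)) := by linarith
    exact le_of_mul_le_mul_left e4 hd2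
  obtain ⟨pa1, pa2, pa3⟩ := biq_psd hA
  obtain ⟨pc1, pc2, pc3⟩ := biq_psd hC
  rcases le_or_gt (b11 * b22 - b12 ^ 2) 0 with hle | hgt
  · have := sq_le_two pa1 pa2 pc1 pc2 pa3 pc3
    linarith
  · have hb : b11 ≠ 0 := by
      intro hb
      subst hb
      nlinarith [sq_nonneg b12]
    by_cases hα : a11 * b12 - a12 * b11 = 0
    · refine key 1 0 (-b12) b11 (by simpa using hb) ?_ ?_
      · linear_combination -hα
      · ring
    · obtain ⟨α, hαd⟩ : ∃ α, α = a11 * b12 - a12 * b11 := ⟨_, rfl⟩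
      obtain ⟨β, hβd⟩ : ∃ β, β = a11 * b22 - a22 * b11 := ⟨_, rfl⟩
      obtain ⟨γ, hγd⟩ : ∃ γ, γ = a12 * b22 - a22 * b12 := ⟨_, rfl⟩
      rw [← hαd] at hα
      have hD : 0 < β ^ 2 - 4 * α * γ := by
        have e : b11 ^ 2 * (β ^ 2 - 4 * α * γ) = (b11 * β - 2 * b12 * α) ^ 2 +
            4 * α ^ 2 * (b11 * b22 - b12 ^ 2) := by
          rw [hαd, hβd, hγd]
          ring
        have h1 : 0 < α ^ 2 := by positivity
        have h2 : 0 < b11 ^ 2 := by positivity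
        have h3 : 0 < b11 ^ 2 * (β ^ 2 - 4 * α * γ) := by
          rw [e]
          have : 0 < 4 * α ^ 2 * (b11 * b22 - b12 ^ 2) := by positivity
          nlinarith [sq_nonneg (b11 * β - 2 * b12 * α)]
        exact pos_of_mul_pos_of_pos_left h3 h2.le
      have hs := Real.sq_sqrt hD.le
      have hs0 : Real.sqrt (β ^ 2 - 4 * α * γ) ≠ 0 := (Real.sqrt_pos.2 hD).ne'
      obtain ⟨D, hDd⟩ : ∃ D, D = Real.sqrt (β ^ 2 - 4 * α * γ) := ⟨_, rfl⟩
      rw [← hDd] at hs hs0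
      refine key (-β + D) (2 * α) (-β - D) (2 * α) ?_ ?_ ?_
      · have : (-β + D) * (2 * α) - 2 * α * (-β - D) = 4 * α * D := by ring
        rw [this]
        positivity
      · have e : a11 * γ - a12 * β + a22 * α = 0 := by
          rw [hαd, hβd, hγd]
          ring
        linear_combination 4 * α * e - a11 * hs
      · have e : b11 * γ - b12 * β + b22 * α = 0 := by
          rw [hαd, hβd, hγd]
          ring
        linear_combination 4 * α * e - b11 * hs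
where
  pos_of_mul_pos_of_pos_left {x y : ℝ} (h : 0 < x * y) (hx : 0 ≤ x) : 0 < y := by
    by_contra hy
    push Not at hy
    nlinarith

end Pool.Agent.T9h14.BQ
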