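import Pool.Agent.Y519.HB.Last

/-!
# Blocks which are grouped: alternating sums on pure vectors
-/

set_option autoImplicit false

namespace Pool.Agent.T9h14.BQ

open Pool.Agent.W666.GB Pool.Agent.W669.HD Pool.Agent.Y519.HB Finset

/-- the alternating sums of `P` on pure vectors are nonnegative -/
def HerP {J ι : Type} [Fintype J] (col : J → ι) (P : J → J → J → J → ℝ) : Prop :=
  ∀ (T : Type) [Fintype T] [DecidableEq T] (y : T × Bool → J → ℝ), (∀ q, Pur col (y q)) →
    0 ≤ EE (fun _ : T => P) y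

theorem herP_of_her {J ι : Type} [Fintype J] (col : J → ι) {P : J → J → J → J → ℝ} (h : Her P) :
    HerP col P := fun T _ _ y _ => h T y

section supp

variable {J ι γ : Type} [Fintype J] {col : J → ι} {g : ι → γ}

theorem EE_alignedG [DecidableEq γ] (P : γ → J → J → J → J → ℝ)
    (hs : ∀ i j a b c, g (col j) ≠ i → P i j a b c = 0) (hC : ∀ i, Cu (P i))
    (hH : ∀ i, HerP col (P i))
    (n : ℕ) : ∀ (T : Type) [Fintype T] [DecidableEq T], Fintype.card T = n → ∀ (f : T → γ)
      (y : T × Bool → J → ℝ), (∀ q, Pur col (y q)) → (∀ q j, g (col j) ≠ f q.1 → y q j = 0) →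
      0 ≤ EE (fun b => P (f b)) y := by
  induction n using Nat.strong_induction_on with
  | _ n ih =>
    intro T _ _ hn f y hpy hy
    rcases isEmpty_or_nonempty T with hT | hT
    · unfold Pool.Agent.Y519.HB.EE
      refine sum_nonneg fun π _ => sum_nonneg fun π' _ => ?_
      have : ∀ π : Equiv.Perm (T × Bool), sn π = 1 := by
        intro π
        rw [Subsingleton.elim π 1]
        simp [sn]
      rw [this, this]
      simp
    · obtain ⟨b₀⟩ := hT
      have hsame : ∀ π π' : Equiv.Perm (T × Bool), (∏ b : T, ev4 (P (f b)) (y (π (b, false)))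
          (y (π (b, true))) (y (π' (b, false))) (y (π' (b, true)))) ≠ 0 →
          (∀ q, f (π q).1 = f q.1) ∧ (∀ q, f (π' q).1 = f q.1) := by
        intro π π' hne
        have hb : ∀ b, ev4 (P (f b)) (y (π (b, false))) (y (π (b, true))) (y (π' (b, false)))
            (y (π' (b, true))) ≠ 0 := fun b => (Finset.prod_ne_zero_iff.1 hne) b (mem_univ b)
        have key : ∀ (q : T × Bool) (b : T), (∃ j, (g ∘ col) j = f b ∧ y q j ≠ 0) →
            f q.1 = f b := by
          rintro q b ⟨j, hj, hne⟩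
          by_contra hc
          exact hne (hy q j (by
            change (g ∘ col) j ≠ f q.1
            rw [hj]
            exact Ne.symm hc))
        constructor
        · rintro ⟨b, β⟩
          obtain ⟨h1, h2, -, -⟩ := colours (col := g ∘ col) (hC _) (hs _) (hb b)
          cases β
          · exact key _ _ h1
          · exact key _ _ h2
        · rintro ⟨b, β⟩
          obtain ⟨-, -, h1, h2⟩ := colours (col := g ∘ col) (hC _) (hs _) (hb b)
          cases β
          · exact key _ _ h1
          · exact key _ _ h2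
      rw [EE_split (fun b => f b = f b₀) (fun b => P (f b)) y (by
        intro π π' hne
        obtain ⟨h1, h2⟩ := hsame π π' hne
        exact ⟨fun q hq => (h1 q).trans hq, fun q hq => (h2 q).trans hq⟩)]
      refine mul_nonneg ?_ ?_
      · have e : (fun b : {b // f b = f b₀} => P (f b)) = fun _ => P (f b₀) := by
          funext b
          rw [b.2]
        rw [e]
        exact hH _ _ _ fun q => hpy _
      · refine ih (Fintype.card {b // ¬ f b = f b₀}) ?_ {b // ¬ f b = f b₀} rfl
          (fun b => f b) _ (fun q => hpy _) ?_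
        · rw [← hn]
          exact Fintype.card_subtype_lt (x := b₀) (by simp)
        · intro q j hj
          exact hy (q.1, q.2) j hj

/-- pure vectors -/
theorem EE_pureG [DecidableEq γ] (P : γ → J → J → J → J → ℝ)
    (hs : ∀ i j a b c, g (col j) ≠ i → P i j a b c = 0) (hC : ∀ i, Cu (P i))
    (hH : ∀ i, HerP col (P i))
    {T : Type} [Fintype T] [DecidableEq T] (f : T → γ) (y : T × Bool → J → ℝ)
    (hy : ∀ q, Pur col (y q)) : 0 ≤ EE (fun b => P (f b)) y := by
  by_cases hz : ∀ π π' : Equiv.Perm (T × Bool), (∏ b : T, ev4 (P (f b)) (y (π (b, false)))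
      (y (π (b, true))) (y (π' (b, false))) (y (π' (b, true)))) = 0
  · unfold Pool.Agent.Y519.HB.EE
    simp [hz]
  · push Not at hz
    obtain ⟨π, π', hne⟩ := hz
    rw [← EE_perm (fun b => P (f b)) y π]
    refine EE_alignedG P hs hC hH _ T rfl f _ (fun q => hy _) ?_
    have hb : ∀ b, ev4 (P (f b)) (y (π (b, false))) (y (π (b, true))) (y (π' (b, false)))
        (y (π' (b, true))) ≠ 0 := fun b => (Finset.prod_ne_zero_iff.1 hne) b (mem_univ b)
    have key : ∀ (q : T × Bool) (b : T), (∃ j, (g ∘ col) j = f b ∧ y q j ≠ 0) →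
        ∀ j, g (col j) ≠ f b → y q j = 0 := by
      rintro q b ⟨j, hj, hne⟩ j' hj'
      obtain ⟨i, hi⟩ := hy q
      have h1 : g i = f b := by
        by_contra hc
        exact hne (hi j (by
          intro h
          apply hc
          rw [← hj, ← h]
          rfl))
      exact hi j' (by
        intro h
        exact hj' (by rw [h, h1]))
    rintro ⟨b, β⟩ j hj
    obtain ⟨h1, h2, -, -⟩ := colours (col := g ∘ col) (hC _) (hs _) (hb b)
    cases β
    · exact key _ _ h1 j hj
    · exact key _ _ h2 j hj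

end supp

section blocks

variable {m : ℕ} {ι γ : Type} [DecidableEq ι] [Fintype γ] [DecidableEq γ]
  {col : Fin m × Bool → ι} {g : ι → γ}

/-- **Blocks.** -/
theorem good_blkG (P : γ → T4 m) (hs : ∀ i j a b c, g (col j) ≠ i → P i j a b c = 0)
    (hC : ∀ i, Cu (P i)) (hH : ∀ i, HerP col (P i)) (S : Finset (Fin m)) :
    Good col S (fun _ => (fun i j k l => ∑ a, P a i j k l)) := by
  intro v hv
  obtain ⟨c, y, hy, hgen⟩ := gen col S v hv
  rw [hgen]
  refine mul_nonneg (sq_nonneg _) ?_
  rw [EE_sum P y]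
  refine sum_nonneg fun f _ => EE_pureG P hs hC hH f y hy

theorem blk_compG (P : γ → T4 m) (hs : ∀ i j a b c, g (col j) ≠ i → P i j a b c = 0)
    (hC : ∀ i, Cu (P i)) (hH : ∀ i, HerP col (P i)) (hι : Nonempty ι) {κ : Type} [Fintype κ]
    {x y : κ → Fin m × Bool → ℝ} (hx : ∀ a, Pur col (x a)) (hy : ∀ a, Pur col (y a)) :
    gm (fun _ : Fin m => Dq x y) ≤
      gm (fun _ : Fin m => (fun i j k l => (∑ a, P a i j k l) + Dq x y i j k l : T4 m)) := by
  classical
  rw [gm_add (m := m) (fun i j k l => ∑ a, P a i j k l) (Dq x y)]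
  have hpos : ∀ S ∈ (univ : Finset (Fin m)).powerset,
      0 ≤ mix (fun i j k l => ∑ a, P a i j k l) (Dq x y) S := fun S _ =>
    place_nonneg hι hx hy (C := fun _ => (fun i j k l => ∑ a, P a i j k l : T4 m))
      (good_blkG P hs hC hH S)
  have h1 := Finset.single_le_sum hpos (Finset.empty_mem_powerset _)
  rwa [mix_empty] at h1

end blocks

section geo

variable {V : Type} [NormedAddCommGroup V] [InnerProductSpace ℝ V]

/-- the space is the orthogonal sum of the subspaces `U i` -/
def OrthSumI {ι : Type} (U : ι → Submodule ℝ V) : Prop :=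
  (∀ i j, i ≠ j → ∀ x ∈ U i, ∀ y ∈ U j, inner ℝ x y = 0) ∧ ⨆ i, U i = ⊤

/-- **Grouped blocks.** -/
theorem group_bound {m : ℕ} (e : OrthonormalBasis (Fin m × Bool) ℝ V) {δ : ℝ} (hδ : 0 ≤ δ)
    {ι γ : Type} [Fintype ι] [DecidableEq ι] [Fintype γ] [DecidableEq γ] (g : ι → γ)
    {κ : Type} [Fintype κ] {U : ι → Submodule ℝ V}
    {S : γ → V → V → V → V → ℝ} {x y : κ → V} {p q : κ → ι}
    (hU : OrthSumI U)
    (hS : ∀ i, AlgCurv (S i))
    (hL : ∀ i k, g k ≠ i → ∀ x ∈ U k, ∀ a b c, S i x a b c = 0)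
    (hH : ∀ (i : γ) (e' : OrthonormalBasis (Fin m × Bool) ℝ V) (col : Fin m × Bool → ι),
      (∀ j, e' j ∈ U (col j)) → HerP col (cp e' (negT (S i))))
    (hx : ∀ k, x k ∈ U (p k)) (hy : ∀ k, y k ∈ U (q k)) {R : V → V → V → V → ℝ}
    (hRc : AlgCurv R)
    (hR : ∀ a b c d, R a b c d = (∑ i, S i a b c d) - (∑ k, sqDec (x k) (y k) a b c d) -
      δ * unitT a b c d) :
    roundGB m δ ≤ (-1) ^ m * gbc e R := by
  classical
  obtain ⟨hU, hT⟩ := hU
  obtain ⟨e', col, hcol⟩ := adapted e U hU hT
  rcases Nat.eq_zero_or_pos m with hm | hm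
  · subst hm
    simp [roundGB, gbc]
  have hι : Nonempty ι := ⟨col (⟨0, hm⟩, false)⟩
  rw [Pool.Agent.W688.HD.bas m V e e' R hRc, gbc_eq]
  have hπ := Real.pi_pos
  have hc : 0 < 1 / ((8 * Real.pi) ^ m * (m.factorial : ℝ)) := by positivity
  rw [const_eq]
  refine mul_le_mul_of_nonneg_left ?_ hc.le
  rw [← unit_gm]
  have hD : ∀ _ : Fin m, cp e' (negT R) = fun i j k l =>
      (∑ a, cp e' (negT (S a)) i j k l) +
        Dq (Sum.elim (fun k i => inner ℝ (x k) (e' i))
          (fun p : (Fin m × Bool) × (Fin m × Bool) => fun i =>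
            Real.sqrt (δ / 2) * (if i = p.1 then 1 else 0)))
          (Sum.elim (fun k i => inner ℝ (y k) (e' i))
            (fun p j => if j = p.2 then 1 else 0)) i j k l := by
    intro _
    funext i j k l
    have hu := congrFun (congrFun (congrFun (congrFun (unit_Dq (m := m) hδ) i) j) k) l
    simp only [Dq] at hu
    simp only [cp, negT, hR, Dq, Fintype.sum_sum_type, Sum.elim_inl, Sum.elim_inr, ← hu,
      cp_unit, sqDec, sum_neg_distrib]
    ring
  rw [show (fun _ : Fin m => cp e' (negT R)) = _ from funext hD]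
  have hpur : ∀ (i : ι) (z : V), z ∈ U i → ∀ j, col j ≠ i → inner ℝ z (e' j) = 0 := by
    intro i z hz j hj
    exact hU i (col j) (Ne.symm hj) z hz (e' j) (hcol j)
  have hsup : ∀ i j a b c, g (col j) ≠ i → cp e' (negT (S i)) j a b c = 0 := by
    intro i j a b c hj
    simp only [cp, negT]
    rw [hL i (col j) hj (e' j) (hcol j), neg_zero]
  refine le_trans ?_ (blk_compG (col := col) (g := g) (fun a => cp e' (negT (S a))) hsup
    (fun i => cu_cp e' (hS i)) (fun i => hH i e' col hcol) hι ?_ ?_)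
  · rw [unit_Dq hδ]
    exact dq_ge _ _ _ _
  · rintro (k | ⟨a, b⟩)
    · exact ⟨p k, fun j hj => hpur _ _ (hx k) j hj⟩
    · refine ⟨col a, fun j hj => ?_⟩
      simp only [Sum.elim_inr]
      rw [if_neg (fun h => hj (by rw [h])), mul_zero]
  · rintro (k | ⟨a, b⟩)
    · exact ⟨q k, fun j hj => hpur _ _ (hy k) j hj⟩
    · refine ⟨col b, fun j hj => ?_⟩
      simp only [Sum.elim_inr]
      rw [if_neg (fun h => hj (by rw [h]))]

end geo

end Pool.Agent.T9h14.BQ
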