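import Pool.Agent.T9h14.BQ.Biq
import Pool.Agent.T9h14.GP.Class
import Pool.Agent.TH828.J3423

/-!
# Pairs of blocks with a nonnegative biquadratic form
-/

set_option autoImplicit false

namespace Pool.Agent.T9h14.BQ

open Pool.Agent.W666.GB Pool.Agent.W669.HD Pool.Agent.Y519.HB Finset

/-- the components of `x` vanish outside the colour `i` -/
def Sup {J ι : Type} (col : J → ι) (i : ι) (x : J → ℝ) : Prop := ∀ j, col j ≠ i → x j = 0

/-- a curvature-like tensor living on two colours `α`, `β`, which vanishes if its first two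
arguments have the same colour -/
structure PairT {J ι : Type} [Fintype J] (col : J → ι) (α β : ι) (P : J → J → J → J → ℝ) :
    Prop where
  cu : Cu P
  sup : ∀ j a b c, col j ≠ α → col j ≠ β → P j a b c = 0
  aa : ∀ i j k l, col i = α → col j = α → P i j k l = 0
  bb : ∀ i j k l, col i = β → col j = β → P i j k l = 0

section

variable {J ι : Type} [Fintype J] {col : J → ι} {α β : ι} {P : J → J → J → J → ℝ}

lemma PairT.ev_aa (h : PairT col α β P) {x y : J → ℝ} (hx : Sup col α x) (hy : Sup col α y)
    (z w : J → ℝ) : ev4 P x y z w = 0 := by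
  unfold ev4
  refine sum_eq_zero fun p _ => ?_
  by_cases h1 : col p.1.1 = α
  · by_cases h2 : col p.1.2 = α
    · rw [h.aa _ _ _ _ h1 h2, mul_zero]
    · rw [hy _ h2]; ring
  · rw [hx _ h1]; ring

lemma PairT.ev_bb (h : PairT col α β P) {x y : J → ℝ} (hx : Sup col β x) (hy : Sup col β y)
    (z w : J → ℝ) : ev4 P x y z w = 0 := by
  unfold ev4
  refine sum_eq_zero fun p _ => ?_
  by_cases h1 : col p.1.1 = β
  · by_cases h2 : col p.1.2 = β
    · rw [h.bb _ _ _ _ h1 h2, mul_zero]
    · rw [hy _ h2]; ring
  · rw [hx _ h1]; ring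

lemma PairT.ev_aa' (h : PairT col α β P) {x y : J → ℝ} (hx : Sup col α x) (hy : Sup col α y)
    (z w : J → ℝ) : ev4 P z w x y = 0 := by
  rw [← ev4_pair h.cu, h.ev_aa hx hy]

lemma PairT.ev_bb' (h : PairT col α β P) {x y : J → ℝ} (hx : Sup col β x) (hy : Sup col β y)
    (z w : J → ℝ) : ev4 P z w x y = 0 := by
  rw [← ev4_pair h.cu, h.ev_bb hx hy]

/-- the symmetry of the biquadratic form -/
lemma PairT.ev_swap (h : PairT col α β P) {x z : J → ℝ} (hx : Sup col α x) (hz : Sup col α z)
    (y w : J → ℝ) : ev4 P x y z w = ev4 P z y x w := by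
  have h1 := ev4_bia h.cu x y z w
  have h2 := h.ev_aa hz hx y w
  have h3 := ev4_a12 h.cu z y x w
  linarith

lemma sup_of_pur {i : ι} {x : J → ℝ} (hx : Pur col x) {j : J} (hj : col j = i) (hne : x j ≠ 0) :
    Sup col i x := by
  obtain ⟨i', hi'⟩ := hx
  have : i' = i := by
    by_contra hc
    exact hne (hi' j (by rw [hj]; exact Ne.symm hc))
  subst this
  exact hi'

lemma PairT.alt_sup (h : PairT col α β P) {x : J → ℝ} (hx : Pur col x) (y z w : J → ℝ)
    (hne : ev4 P x y z w ≠ 0) : Sup col α x ∨ Sup col β x := by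
  by_contra hc
  push Not at hc
  refine hne ?_
  unfold ev4
  refine sum_eq_zero fun p _ => ?_
  by_cases h0 : x p.1.1 = 0
  · rw [h0]; ring
  · by_cases h1 : col p.1.1 = α
    · exact absurd (sup_of_pur hx h1 h0) hc.1
    · by_cases h2 : col p.1.1 = β
      · exact absurd (sup_of_pur hx h2 h0) hc.2
      · rw [h.sup _ _ _ _ h1 h2, mul_zero]

/-- the two vectors of a nonvanishing factor -/
lemma PairT.split (h : PairT col α β P) {x y : J → ℝ} (hx : Pur col x) (hy : Pur col y)
    (z w : J → ℝ) (hne : ev4 P x y z w ≠ 0) :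
    (Sup col α x ∧ Sup col β y) ∨ (Sup col β x ∧ Sup col α y) := by
  have h1 := h.alt_sup hx y z w hne
  have h2 := h.alt_sup hy x z w (by rw [ev4_a12 h.cu]; exact neg_ne_zero.2 hne)
  rcases h1 with h1 | h1
  · rcases h2 with h2 | h2
    · exact absurd (h.ev_aa h1 h2 z w) hne
    · exact Or.inl ⟨h1, h2⟩
  · rcases h2 with h2 | h2
    · exact Or.inr ⟨h1, h2⟩
    · exact absurd (h.ev_bb h1 h2 z w) hne

/-- exchange of the two slots of some places -/
def flipP {T : Type} [DecidableEq T] (s : T → Bool) : Equiv.Perm (T × Bool) :=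
  Equiv.prodCongrRight (fun b => if s b then Equiv.swap false true else 1)

lemma flipP_apply {T : Type} [DecidableEq T] (s : T → Bool) (b : T) (c : Bool) :
    flipP s (b, c) = (b, if s b then !c else c) := by
  unfold flipP
  rw [Equiv.prodCongrRight_apply]
  cases hs : s b
  · rfl
  · cases c <;> simp

/-- **Alignment.** -/
theorem PairT.align (h : PairT col α β P) {T : Type} [Fintype T] [DecidableEq T]
    (y : T × Bool → J → ℝ) (hy : ∀ q, Pur col (y q))
    (hH : ∀ y : T × Bool → J → ℝ, (∀ b, Sup col α (y (b, false))) →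
      (∀ b, Sup col β (y (b, true))) → 0 ≤ EE (fun _ : T => P) y) :
    0 ≤ EE (fun _ : T => P) y := by
  classical
  by_cases hz : ∀ π π' : Equiv.Perm (T × Bool), (∏ b : T, ev4 P (y (π (b, false)))
      (y (π (b, true))) (y (π' (b, false))) (y (π' (b, true)))) = 0
  · unfold Pool.Agent.Y519.HB.EE
    simp [hz]
  · push Not at hz
    obtain ⟨π, π', hne⟩ := hz
    have hb : ∀ b, ev4 P (y (π (b, false))) (y (π (b, true))) (y (π' (b, false)))
        (y (π' (b, true))) ≠ 0 := fun b => (Finset.prod_ne_zero_iff.1 hne) b (mem_univ b)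
    have hs : ∀ b, (Sup col α (y (π (b, false))) ∧ Sup col β (y (π (b, true)))) ∨
        (Sup col β (y (π (b, false))) ∧ Sup col α (y (π (b, true)))) := fun b =>
      h.split (hy _) (hy _) _ _ (hb b)
    obtain ⟨s, hsd⟩ : ∃ s : T → Bool, ∀ b, s b = true ↔
        ¬ (Sup col α (y (π (b, false))) ∧ Sup col β (y (π (b, true)))) :=
      ⟨fun b => decide (¬ (Sup col α (y (π (b, false))) ∧ Sup col β (y (π (b, true))))),
        fun b => by simp only [decide_eq_true_eq]⟩
    rw [← EE_perm (fun _ : T => P) y (π * flipP s)]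
    refine hH _ ?_ ?_
    · intro b
      rw [Equiv.Perm.mul_apply, flipP_apply]
      cases hb : s b
      · have : ¬ (s b = true) := by rw [hb]; simp
        rw [hsd] at this
        push Not at this
        simpa using this.1
      · have h1 := (hsd b).1 hb
        rcases hs b with h2 | h2
        · exact absurd h2 h1
        · simpa using h2.2
    · intro b
      rw [Equiv.Perm.mul_apply, flipP_apply]
      cases hb : s b
      · have : ¬ (s b = true) := by rw [hb]; simp
        rw [hsd] at this
        push Not at this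
        simpa using this.2
      · have h1 := (hsd b).1 hb
        rcases hs b with h2 | h2
        · exact absurd h2 h1
        · simpa using h2.1

/-- many vectors of a colour with few indices -/
theorem EE_few {T : Type} [Fintype T] [DecidableEq T]
    [DecidablePred fun j => col j = α]
    (hc : (univ.filter fun j => col j = α).card < Fintype.card T) (y : T × Bool → J → ℝ)
    (ha : ∀ b, Sup col α (y (b, false))) : EE (fun _ : T => P) y = 0 := by
  classical
  rw [← contract]
  refine sum_eq_zero fun F _ => sum_eq_zero fun G _ => ?_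
  by_contra hcon
  have h0 : ∑ π : Equiv.Perm (T × Bool), sn π * ∏ p, y (π p) (F p) ≠ 0 := by
    intro h0
    exact hcon (by rw [h0]; ring)
  have h1 : Function.Injective F := by
    by_contra hi
    exact h0 (A_noninj y F hi)
  have h2 : ∃ π : Equiv.Perm (T × Bool), ∏ p, y (π p) (F p) ≠ 0 := by
    by_contra hall
    push Not at hall
    exact h0 (sum_eq_zero fun π _ => by rw [hall π, mul_zero])
  obtain ⟨π, hπ⟩ := h2
  have h3 : ∀ p, y (π p) (F p) ≠ 0 := fun p => (Finset.prod_ne_zero_iff.1 hπ) p (mem_univ p)
  -- the indices of the vectors of the first colour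
  have h4 : ∀ b : T, col (F (π.symm (b, false))) = α := by
    intro b
    by_contra hcol
    have := h3 (π.symm (b, false))
    rw [Equiv.apply_symm_apply] at this
    exact this (ha b _ hcol)
  have h5 : Function.Injective fun b : T => F (π.symm (b, false)) := by
    intro b b' hbb
    have := π.symm.injective (h1 hbb)
    exact congrArg Prod.fst this
  have h6 : Fintype.card T ≤ (univ.filter fun j => col j = α).card := by
    rw [← Finset.card_univ, ← Finset.card_image_of_injective univ h5]
    refine Finset.card_le_card ?_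
    intro j hj
    obtain ⟨b, -, rfl⟩ := Finset.mem_image.1 hj
    simp [h4 b]
  omega

end

end Pool.Agent.T9h14.BQ
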