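import Pool.Agent.T9h14.BQ.Pair

/-!
# Pairs of blocks with a nonnegative biquadratic form: one, two and three slots
-/

set_option autoImplicit false

namespace Pool.Agent.T9h14.BQ

open Pool.Agent.W666.GB Pool.Agent.W669.HD Pool.Agent.Y519.HB Finset Pool.Agent.T9h14.GP

theorem EE_one_eq {T J : Type} [Fintype T] [DecidableEq T] [Fintype J]
    {P : J → J → J → J → ℝ} (hC : Cu P) (b₀ : T) (hT : ∀ b, b = b₀) (y : T × Bool → J → ℝ) :
    EE (fun _ : T => P) y =
      4 * ev4 P (y (b₀, false)) (y (b₀, true)) (y (b₀, false)) (y (b₀, true)) := by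
  classical
  have hg : Function.Bijective (fun β : Bool => ((b₀, β) : T × Bool)) := by
    constructor
    · intro i j h
      exact congrArg Prod.snd h
    · rintro ⟨b, β⟩
      exact ⟨β, by rw [hT b]⟩
  set g : Bool ≃ T × Bool := Equiv.ofBijective _ hg with hgdef
  have g0 : g false = (b₀, false) := rfl
  have g1 : g true = (b₀, true) := rfl
  have hu : (univ : Finset (Equiv.Perm Bool)) = {1, Equiv.swap false true} := by decide
  have hne : (1 : Equiv.Perm Bool) ≠ Equiv.swap false true := by decide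
  have hs : ∀ π : Equiv.Perm Bool, sn (g.permCongr π) = sn π := by
    intro π
    unfold sn
    rw [Equiv.Perm.sign_permCongr]
  have hE : EE (fun _ : T => P) y = ∑ π : Equiv.Perm Bool, ∑ π' : Equiv.Perm Bool, sn π * sn π' *
      ev4 P (y (g (π false))) (y (g (π true))) (y (g (π' false))) (y (g (π' true))) := by
    unfold Pool.Agent.Y519.HB.EE
    rw [← Equiv.sum_comp (Equiv.permCongr g)]
    refine sum_congr rfl fun π _ => ?_
    rw [← Equiv.sum_comp (Equiv.permCongr g)]
    refine sum_congr rfl fun π' _ => ?_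
    rw [hs, hs, Fintype.prod_eq_single b₀ (fun b hb => absurd (hT b) hb)]
    congr 1
    simp only [Equiv.permCongr_apply, ← g0, ← g1, Equiv.symm_apply_apply]
  have s1 : sn (1 : Equiv.Perm Bool) = 1 := by simp [sn]
  have s2 : sn (Equiv.swap false true) = -1 := sn_swap' (by decide)
  rw [hE, hu, sum_pair hne, sum_pair hne, sum_pair hne]
  simp only [s1, s2, Equiv.Perm.one_apply, Equiv.swap_apply_left, Equiv.swap_apply_right]
  have h1 : ev4 P (y (g true)) (y (g false)) (y (g false)) (y (g true)) =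
      - ev4 P (y (g false)) (y (g true)) (y (g false)) (y (g true)) := ev4_a12 hC _ _ _ _
  have h2 : ev4 P (y (g false)) (y (g true)) (y (g true)) (y (g false)) =
      - ev4 P (y (g false)) (y (g true)) (y (g false)) (y (g true)) := by
    rw [← ev4_pair hC, ev4_a12 hC, ev4_pair hC]
  have h3 : ev4 P (y (g true)) (y (g false)) (y (g true)) (y (g false)) =
      ev4 P (y (g false)) (y (g true)) (y (g false)) (y (g true)) := by
    rw [ev4_a12 hC, h2, neg_neg]
  rw [h1, h2, h3, g0, g1]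
  ring

theorem EE_two_eq {T J : Type} [Fintype T] [DecidableEq T] [Fintype J]
    {P : J → J → J → J → ℝ} (b₀ b₁ : T) (hne : b₀ ≠ b₁) (hT : ∀ b, b = b₀ ∨ b = b₁)
    (y : T × Bool → J → ℝ) : EE (fun _ : T => P) y =
      kap (pul P ![y (b₀, false), y (b₀, true), y (b₁, false), y (b₁, true)]) := by
  classical
  have hg : Function.Bijective (![(b₀, false), (b₀, true), (b₁, false), (b₁, true)] :
      Fin 4 → T × Bool) := by
    constructor
    · intro i j h
      fin_cases i <;> fin_cases j <;> simp_all [Prod.ext_iff]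
    · rintro ⟨b, β⟩
      rcases hT b with h | h
      · cases β
        · exact ⟨0, by simp [h]⟩
        · exact ⟨1, by simp [h]⟩
      · cases β
        · exact ⟨2, by simp [h]⟩
        · exact ⟨3, by simp [h]⟩
  set g : Fin 4 ≃ T × Bool := Equiv.ofBijective _ hg with hgdef
  have g0 : g 0 = (b₀, false) := rfl
  have g1 : g 1 = (b₀, true) := rfl
  have g2 : g 2 = (b₁, false) := rfl
  have g3 : g 3 = (b₁, true) := rfl
  have hv : ![y (b₀, false), y (b₀, true), y (b₁, false), y (b₁, true)] = fun i => y (g i) := by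
    funext i
    fin_cases i <;> rfl
  rw [hv]
  unfold Pool.Agent.Y519.HB.EE kap
  rw [← Equiv.sum_comp (Equiv.permCongr g)]
  refine sum_congr rfl fun π _ => ?_
  rw [← Equiv.sum_comp (Equiv.permCongr g)]
  refine sum_congr rfl fun π' _ => ?_
  have hs : ∀ π : Equiv.Perm (Fin 4), sn (g.permCongr π) = sn π := by
    intro π
    unfold sn
    rw [Equiv.Perm.sign_permCongr]
  rw [hs, hs, Fintype.prod_eq_mul b₀ b₁ hne]
  · congr 1
    unfold pul
    simp only [Equiv.permCongr_apply, ← g0, ← g1, ← g2, ← g3, Equiv.symm_apply_apply]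
  · intro b hb
    rcases hT b with h | h
    · exact absurd h hb.1
    · exact absurd h hb.2

/-- the double alternating sum in four dimensions for a pair of two-dimensional blocks -/
theorem kap_pure {K : Q4} (hC : Cu K) (h02 : ∀ k l, K 0 2 k l = 0) (h13 : ∀ k l, K 1 3 k l = 0) :
    kap K = 32 * (K 0 1 0 1 * K 2 3 2 3 + K 0 3 0 3 * K 2 1 2 1 -
      2 * (K 0 1 0 3 * K 2 1 2 3) - 2 * (K 0 1 2 1 * K 0 3 2 3 - K 0 1 2 3 ^ 2)) := by
  have a12 := hC.a12
  have p34 : ∀ i j k l, K i j l k = - K i j k l := fun i j k l => by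
    rw [← hC.pair i j l k, hC.a12, hC.pair]
  have dz : ∀ i k l, K i i k l = 0 := fun i k l => by
    have := a12 i i k l
    linarith
  have h20 : ∀ k l, K 2 0 k l = 0 := fun k l => by rw [a12 0 2, h02, neg_zero]
  have h31 : ∀ k l, K 3 1 k l = 0 := fun k l => by rw [a12 1 3, h13, neg_zero]
  have h02' : ∀ i j, K i j 0 2 = 0 := fun i j => by rw [hC.pair, h02]
  have h13' : ∀ i j, K i j 1 3 = 0 := fun i j => by rw [hC.pair, h13]
  have e1 : K 0 3 2 1 = K 0 1 2 3 := by
    have h := hC.bia 0 1 2 3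
    have h1 := hC.pair 0 3 1 2
    have h2 := p34 0 3 1 2
    have h3 := h20 1 3
    linarith
  rw [Pool.Agent.W155.HD.K4.kap_sp K p34,
    Pool.Agent.W976.HD.sum4 fun i j k l => 4 * Pool.Agent.W976.HD.sp (K i j) (K k l)]
  simp only [Pool.Agent.W976.HD.sp]
  simp only [h02, h13, h20, h31, h02', h13']
  have r10 : ∀ k l, K 1 0 k l = - K 0 1 k l := fun k l => a12 0 1 k l
  have r32 : ∀ k l, K 3 2 k l = - K 2 3 k l := fun k l => a12 2 3 k l
  have r30 : ∀ k l, K 3 0 k l = - K 0 3 k l := fun k l => a12 0 3 k l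
  have r12 : ∀ k l, K 1 2 k l = - K 2 1 k l := fun k l => a12 2 1 k l
  have c12 : ∀ i j, K i j 1 2 = - K i j 2 1 := fun i j => p34 i j 2 1
  simp only [r10, r32, r30, r12, c12]
  have q1 := hC.pair 0 1 2 3
  have q2 := hC.pair 0 1 0 3
  have q3 := hC.pair 0 1 2 1
  have q4 := hC.pair 0 3 2 3
  have q5 := hC.pair 0 3 2 1
  have q6 := hC.pair 2 1 2 3
  simp only [q1, q2, q3, q4, q5, q6, e1]
  ring

/-- the double alternating sum in four dimensions is nonnegative -/
theorem kap_pure_nonneg {K : Q4} (hC : Cu K) (h02 : ∀ k l, K 0 2 k l = 0)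
    (h13 : ∀ k l, K 1 3 k l = 0)
    (hn : ∀ s t u v : ℝ, 0 ≤ ev4 K ![s, 0, t, 0] ![0, u, 0, v] ![s, 0, t, 0] ![0, u, 0, v]) :
    0 ≤ kap K := by
  have p34 : ∀ i j k l, K i j l k = - K i j k l := fun i j k l => by
    rw [← hC.pair i j l k, hC.a12, hC.pair]
  have h20 : ∀ k l, K 2 0 k l = 0 := fun k l => by rw [hC.a12 0 2, h02, neg_zero]
  have e1 : K 0 3 2 1 = K 0 1 2 3 := by
    have h := hC.bia 0 1 2 3
    have h1 := hC.pair 0 3 1 2
    have h2 := p34 0 3 1 2
    have h3 := h20 1 3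
    linarith
  have q1 := hC.pair 0 1 2 3
  have q2 := hC.pair 0 1 0 3
  have q3 := hC.pair 0 1 2 1
  have q4 := hC.pair 0 3 2 3
  have q5 := hC.pair 0 3 2 1
  have q6 := hC.pair 2 1 2 3
  have hev : ∀ s t u v : ℝ, ev4 K ![s, 0, t, 0] ![0, u, 0, v] ![s, 0, t, 0] ![0, u, 0, v] =
      s ^ 2 * (K 0 1 0 1 * u ^ 2 + 2 * K 0 1 0 3 * (u * v) + K 0 3 0 3 * v ^ 2) +
      2 * (s * t) * (K 0 1 2 1 * u ^ 2 + 2 * K 0 1 2 3 * (u * v) + K 0 3 2 3 * v ^ 2) +
      t ^ 2 * (K 2 1 2 1 * u ^ 2 + 2 * K 2 1 2 3 * (u * v) + K 2 3 2 3 * v ^ 2) := by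
    intro s t u v
    rw [ev4_eq]
    simp only [Fin.sum_univ_four, Matrix.cons_val_zero, Matrix.cons_val_one, Matrix.cons_val]
    simp only [q1, q2, q3, q4, q5, q6, e1]
    ring
  have h := biq22 (fun s t u v => (hn s t u v).trans (le_of_eq (hev s t u v)))
  rw [kap_pure hC h02 h13]
  linarith

section

variable {J ι : Type} [Fintype J] {col : J → ι} {α β : ι} {P : J → J → J → J → ℝ}

/-- nonnegativity on pairs of vectors of the two colours -/
def PosP (col : J → ι) (α β : ι) (P : J → J → J → J → ℝ) : Prop :=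
  ∀ x y : J → ℝ, Sup col α x → Sup col β y → 0 ≤ ev4 P x y x y

lemma sup_sum {T : Type} [Fintype T] {i : ι} (c : T → ℝ) (v : T → J → ℝ)
    (h : ∀ t, c t = 0 ∨ Sup col i (v t)) : Sup col i (fun j => ∑ t, c t * v t j) := by
  intro j hj
  refine sum_eq_zero fun t _ => ?_
  rcases h t with h | h
  · rw [h, zero_mul]
  · rw [h j hj, mul_zero]

theorem two_nonneg (h : PairT col α β P) (hn : PosP col α β P) {T : Type} [Fintype T]
    [DecidableEq T] (b₀ b₁ : T) (hne : b₀ ≠ b₁) (hT : ∀ b, b = b₀ ∨ b = b₁)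
    (y : T × Bool → J → ℝ) (ha : ∀ b, Sup col α (y (b, false)))
    (hb : ∀ b, Sup col β (y (b, true))) : 0 ≤ EE (fun _ : T => P) y := by
  rw [EE_two_eq b₀ b₁ hne hT]
  refine kap_pure_nonneg (cu_pul h.cu _) (fun k l => h.ev_aa (ha b₀) (ha b₁) _ _)
    (fun k l => h.ev_bb (hb b₀) (hb b₁) _ _) ?_
  intro s t u v
  rw [ev4_pul h.cu]
  refine hn _ _ (sup_sum _ _ fun i => ?_) (sup_sum _ _ fun i => ?_)
  · fin_cases i
    · exact Or.inr (ha b₀)
    · exact Or.inl rfl
    · exact Or.inr (ha b₁)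
    · exact Or.inl rfl
  · fin_cases i
    · exact Or.inl rfl
    · exact Or.inr (hb b₀)
    · exact Or.inl rfl
    · exact Or.inr (hb b₁)

/-- three slots -/
theorem three_nonneg (h : PairT col α β P) (hn : PosP col α β P)
    (y : Fin 3 × Bool → J → ℝ) (ha : ∀ b, Sup col α (y (b, false)))
    (hb : ∀ b, Sup col β (y (b, true))) : 0 ≤ EE (fun _ : Fin 3 => P) y := by
  have hGG : EE (fun _ : Fin 3 => P) y =
      (Pool.Agent.TH598.GV.GG (fun a b c d => ((pul P y a b c d : ℝ) : ℂ))).re := by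
    rw [Pool.Agent.TH828.J3423.GG_re]
    rfl
  rw [hGG]
  have hcu := cu_pul h.cu y
  have hsame : ∀ i j k l : Fin 3 × Bool, i.2 = j.2 → pul P y i j k l = 0 := by
    rintro ⟨i, c⟩ ⟨j, d⟩ k l hij
    simp only at hij
    subst hij
    cases c
    · exact h.ev_aa (ha _) (ha _) _ _
    · exact h.ev_bb (hb _) (hb _) _ _
  have hsame' : ∀ i j k l : Fin 3 × Bool, k.2 = l.2 → pul P y i j k l = 0 := by
    intro i j k l hkl
    rw [hcu.pair k l i j, hsame _ _ _ _ hkl]
  refine Cls.nonneg ⟨⟨?_, ?_⟩, ?_, ?_, ?_⟩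
  · intro i j k l
    rw [Complex.conj_ofReal, hcu.pair]
  · intro i j k l
    rw [hcu.a12]
    push_cast
    ring
  · intro i j k l hblk
    by_cases hij : i.2 = j.2
    · rw [hsame _ _ _ _ hij]; simp
    · have : k.2 = l.2 := by
        by_contra hkl
        exact hij (hblk.2 hkl)
      rw [hsame' _ _ _ _ this]; simp
  · intro z w hz hw
    rw [Pool.Agent.TH828.J3423.re_qf _ hcu.pair]
    have hrq : ∀ x u x' u' : Fin 3 × Bool → ℝ,
        Pool.Agent.TH828.J3423.rq (pul P y) x u x' u' = ev4 (pul P y) x u x' u' := by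
      intro x u x' u'
      rw [ev4_eq]
      unfold Pool.Agent.TH828.J3423.rq
      exact Finset.sum_congr rfl fun _ _ => Finset.sum_congr rfl fun _ _ =>
        Finset.sum_congr rfl fun _ _ => Finset.sum_congr rfl fun _ _ => by ring
    simp only [hrq, ev4_pul h.cu]
    have s0 : ∀ c : Fin 3 × Bool → ℝ, (∀ a, c (a, true) = 0) →
        Sup col α (fun j => ∑ t, c t * y t j) := fun c hc => sup_sum _ _ (by
      rintro ⟨t, b⟩
      cases b
      · exact Or.inr (ha t)
      · exact Or.inl (hc t))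
    have s1 : ∀ c : Fin 3 × Bool → ℝ, (∀ a, c (a, false) = 0) →
        Sup col β (fun j => ∑ t, c t * y t j) := fun c hc => sup_sum _ _ (by
      rintro ⟨t, b⟩
      cases b
      · exact Or.inl (hc t)
      · exact Or.inr (hb t))
    have z1 := s0 (fun a => (z a).re) (fun a => by rw [hz]; rfl)
    have z2 := s0 (fun a => (z a).im) (fun a => by rw [hz]; rfl)
    have w1 := s1 (fun a => (w a).re) (fun a => by rw [hw]; rfl)
    have w2 := s1 (fun a => (w a).im) (fun a => by rw [hw]; rfl)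
    have e := h.ev_swap z1 z2 (fun j => ∑ t, (w t).re * y t j) (fun j => ∑ t, (w t).im * y t j)
    have e2 := ev4_pair h.cu (fun j => ∑ t, (z t).re * y t j) (fun j => ∑ t, (w t).im * y t j)
      (fun j => ∑ t, (z t).im * y t j) (fun j => ∑ t, (w t).re * y t j)
    have n1 := hn _ _ z1 w1
    have n2 := hn _ _ z1 w2
    have n3 := hn _ _ z2 w1
    have n4 := hn _ _ z2 w2
    linarith
  · intro p hp
    have h0 : Pool.Agent.R735.HA.Sf (fun a b c d => ((pul P y a b c d : ℝ) : ℂ)) p p = 0 := by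
      unfold Pool.Agent.R735.HA.Sf
      refine Finset.sum_eq_zero fun i _ => Finset.sum_eq_zero fun j _ =>
        Finset.sum_eq_zero fun k _ => Finset.sum_eq_zero fun l _ => ?_
      by_cases hij : i.2 = j.2
      · have h2 := hsame i j k l hij
        simp [h2]
      · rw [hp i j hij]; simp
    rw [h0]
    simp

/-- **Pairs of blocks, one of them of dimension at most three.** -/
theorem herP_pair [DecidableEq ι] (h : PairT col α β P) (hn : PosP col α β P)
    (hc : (univ.filter fun j => col j = α).card ≤ 3) : HerP col P := by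
  classical
  intro T _ _ y hy
  refine h.align y hy ?_
  clear hy y
  intro y ha hb
  rcases Nat.lt_or_ge 3 (Fintype.card T) with h4 | h3
  · rw [EE_few (α := α) (col := col) (lt_of_le_of_lt hc h4) y ha]
  · obtain ⟨n, hn'⟩ : ∃ n, n = Fintype.card T := ⟨_, rfl⟩
    rw [← hn'] at h3
    interval_cases n
    · have hT : IsEmpty T := Fintype.card_eq_zero_iff.1 hn'.symm
      unfold Pool.Agent.Y519.HB.EE
      refine sum_nonneg fun π _ => sum_nonneg fun π' _ => ?_
      have : ∀ π : Equiv.Perm (T × Bool), sn π = 1 := by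
        intro π
        rw [Subsingleton.elim π 1]
        simp [sn]
      rw [this, this]
      simp
    · obtain ⟨b₀, hb₀⟩ := Fintype.card_eq_one_iff.1 hn'.symm
      rw [EE_one_eq h.cu b₀ hb₀]
      have := hn _ _ (ha b₀) (hb b₀)
      linarith
    · obtain ⟨b₀, b₁, hne, huniv⟩ := Finset.card_eq_two.1 (Finset.card_univ.trans hn'.symm)
      refine two_nonneg h hn b₀ b₁ hne (fun b => ?_) y ha hb
      have := mem_univ b
      rw [huniv, mem_insert, mem_singleton] at this
      exact this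
    · obtain ⟨θ⟩ : Nonempty (Fin 3 ≃ T) := by
        rw [← Fintype.card_eq, Fintype.card_fin, hn']
      have := EE_reindex θ (fun _ : T => P) y
      rw [← this]
      exact three_nonneg h hn _ (fun b => ha _) (fun b => hb _)

end

end Pool.Agent.T9h14.BQ
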