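import Pool.Agent.T9h14.BQ.Pair2

/-!
# Blocks and pairs of blocks in Euclidean spaces
-/

set_option autoImplicit false

namespace Pool.Agent.T9h14.BQ

open Pool.Agent.W666.GB Pool.Agent.W669.HD Pool.Agent.Y519.HB Finset

section defs

variable {V : Type} [NormedAddCommGroup V] [InnerProductSpace ℝ V]

/-- An algebraic curvature tensor which lives on the sum of `A` and `B` and vanishes if its first two
arguments are in `A`, and if its first two arguments are in `B`. It is determined by the
biquadratic form `F a b a b`, for `a` in `A` and `b` in `B`, and this form is arbitrary. -/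
structure PairTensor (A B : Submodule ℝ V) (F : V → V → V → V → ℝ) : Prop where
  curv : AlgCurv F
  lives : LivesOn (A ⊔ B) F
  aa : ∀ a ∈ A, ∀ a' ∈ A, ∀ x y, F a a' x y = 0
  bb : ∀ b ∈ B, ∀ b' ∈ B, ∀ x y, F b b' x y = 0

/-- The space is the orthogonal sum of blocks `U i` and of pairs of blocks `A j`, `B j`, the
dimension of `A j` being at most three; `R` is the sum of curvature tensors `S i` living on `U i`
with the Hopf sign on all even-dimensional subspaces of `U i`, and of tensors `F j` of the pair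
`A j`, `B j` whose biquadratic form is nonpositive (an arbitrary one), minus squares `(x ∧ y)²` with
`x` in one of the blocks and `y` in one of the blocks, minus `δ` times the unit tensor. -/
def BiquadBlocks (δ : ℝ) (R : V → V → V → V → ℝ) : Prop :=
  ∃ (r s : ℕ) (U : Fin r → Submodule ℝ V) (A B : Fin s → Submodule ℝ V)
    (S : Fin r → V → V → V → V → ℝ) (F : Fin s → V → V → V → V → ℝ) (n : ℕ)
    (x y : Fin n → V) (p q : Fin n → Fin r ⊕ (Fin s ⊕ Fin s)),
    OrthSumI (Sum.elim U (Sum.elim A B)) ∧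
    (∀ i, AlgCurv (S i) ∧ LivesOn (U i) (S i) ∧ HopfOn (U i) (S i)) ∧
    (∀ j, Module.finrank ℝ (A j) ≤ 3 ∧ PairTensor (A j) (B j) (F j) ∧
      ∀ a ∈ A j, ∀ b ∈ B j, F j a b a b ≤ 0) ∧
    (∀ k, x k ∈ Sum.elim U (Sum.elim A B) (p k)) ∧ (∀ k, y k ∈ Sum.elim U (Sum.elim A B) (q k)) ∧
    ∀ a b c d, R a b c d = ((∑ i, S i a b c d) + ∑ j, F j a b c d) -
      (∑ k, sqDec (x k) (y k) a b c d) - δ * unitT a b c d

end defs

section point

variable {V : Type} [NormedAddCommGroup V] [InnerProductSpace ℝ V]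

/-- the group of a block -/
def grp {r s : ℕ} : Fin r ⊕ (Fin s ⊕ Fin s) → Fin r ⊕ Fin s
  | Sum.inl i => Sum.inl i
  | Sum.inr (Sum.inl j) => Sum.inr j
  | Sum.inr (Sum.inr j) => Sum.inr j

/-- the indices of a colour are at most as many as the dimension of the block -/
lemma card_col {m : ℕ} {ι : Type} [DecidableEq ι] (e : OrthonormalBasis (Fin m × Bool) ℝ V)
    {U : ι → Submodule ℝ V} {col : Fin m × Bool → ι} (hcol : ∀ j, e j ∈ U (col j)) (i : ι) :
    (univ.filter fun j => col j = i).card ≤ Module.finrank ℝ (U i) := by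
  have : FiniteDimensional ℝ V := Module.Finite.of_basis e.toBasis
  have hli : LinearIndependent ℝ (fun j : {j // col j = i} =>
      (⟨e j.1, by have := hcol j.1; rw [j.2] at this; exact this⟩ : U i)) := by
    have h1 : LinearIndependent ℝ (fun j : {j // col j = i} => e j.1) :=
      e.orthonormal.linearIndependent.comp (fun j : {j // col j = i} => j.1)
        Subtype.val_injective
    exact LinearIndependent.of_comp (U i).subtype h1
  have h2 := hli.fintype_card_le_finrank
  rwa [Fintype.card_subtype] at h2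

/-- evaluation of the components -/
lemma ev_cp {m : ℕ} (e : OrthonormalBasis (Fin m × Bool) ℝ V) {F : V → V → V → V → ℝ}
    (hF : AlgCurv F) (x y z w : Fin m × Bool → ℝ) : ev4 (cp e (negT F)) x y z w =
      - F (∑ j, x j • e j) (∑ j, y j • e j) (∑ j, z j • e j) (∑ j, w j • e j) := by
  rw [R_ev4 hF (fun j => e j)]
  unfold ev4
  rw [← sum_neg_distrib]
  refine sum_congr rfl fun p _ => ?_
  simp only [cp, negT]
  ring

lemma vec_mem {m : ℕ} {ι : Type} (e : OrthonormalBasis (Fin m × Bool) ℝ V)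
    {U : ι → Submodule ℝ V} {col : Fin m × Bool → ι} (hcol : ∀ j, e j ∈ U (col j)) {i : ι}
    {x : Fin m × Bool → ℝ} (hx : Sup col i x) : ∑ j, x j • e j ∈ U i := by
  refine Submodule.sum_mem _ fun j _ => ?_
  by_cases h : col j = i
  · rw [← h]
    exact Submodule.smul_mem _ _ (hcol j)
  · rw [hx j h, zero_smul]
    exact Submodule.zero_mem _

/-- the components of the tensor of a pair -/
lemma pairT_cp {m : ℕ} {ι : Type} (e : OrthonormalBasis (Fin m × Bool) ℝ V)
    {U : ι → Submodule ℝ V} {col : Fin m × Bool → ι} (hcol : ∀ j, e j ∈ U (col j))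
    (hU : ∀ i j, i ≠ j → ∀ x ∈ U i, ∀ y ∈ U j, inner ℝ x y = 0) {α β : ι}
    {F : V → V → V → V → ℝ} (hF : PairTensor (U α) (U β) F) :
    PairT col α β (cp e (negT F)) where
  cu := cu_cp e hF.curv
  sup j a b c hα hβ := by
    simp only [cp, negT]
    rw [hF.lives (e j), neg_zero]
    rw [Submodule.mem_orthogonal]
    intro u hu
    obtain ⟨v, hv, w, hw, rfl⟩ := Submodule.mem_sup.1 hu
    rw [inner_add_left, hU α (col j) (Ne.symm hα) v hv _ (hcol j),
      hU β (col j) (Ne.symm hβ) w hw _ (hcol j), add_zero]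
  aa i j k l hi hj := by
    simp only [cp, negT]
    rw [hF.aa _ (hi ▸ hcol i) _ (hj ▸ hcol j), neg_zero]
  bb i j k l hi hj := by
    simp only [cp, negT]
    rw [hF.bb _ (hi ▸ hcol i) _ (hj ▸ hcol j), neg_zero]

theorem bq_curv {δ : ℝ} {R : V → V → V → V → ℝ} (h : BiquadBlocks δ R) : AlgCurv R := by
  obtain ⟨r, s, U, A, B, S, F, n, x, y, p, q, hO, hS, hF, hx, hy, hR⟩ := h
  have h0 : AlgCurv (fun a b c d => (∑ i, S i a b c d) + ∑ j, F j a b c d) :=
    add_curv (sum_curv fun i => (hS i).1) (sum_curv fun j => (hF j).2.1.curv)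
  have h1 := sub_curv (sub_curv h0 (sum_curv fun k => sq_curv (x k) (y k)))
    (unit_curv (V := V) δ)
  have h2 : R = fun a b c d => (((∑ i, S i a b c d) + ∑ j, F j a b c d) -
      ∑ k, sqDec (x k) (y k) a b c d) - δ * unitT a b c d := by
    funext a b c d
    exact hR a b c d
  rw [h2]
  exact h1

/-- **The pointwise theorem.** -/
theorem bq_bound {m : ℕ} (e : OrthonormalBasis (Fin m × Bool) ℝ V) {δ : ℝ} (hδ : 0 ≤ δ)
    {R : V → V → V → V → ℝ} (h : BiquadBlocks δ R) :
    roundGB m δ ≤ (-1) ^ m * gbc e R := by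
  have hRc := bq_curv h
  obtain ⟨r, s, U, A, B, S, F, n, x, y, p, q, hO, hS, hF, hx, hy, hR⟩ := h
  obtain ⟨W, hW⟩ : ∃ W, W = Sum.elim U (Sum.elim A B) := ⟨_, rfl⟩
  rw [← hW] at hO hx hy
  have wU : ∀ i, W (Sum.inl i) = U i := fun i => by rw [hW]; rfl
  have wA : ∀ j, W (Sum.inr (Sum.inl j)) = A j := fun j => by rw [hW]; rfl
  have wB : ∀ j, W (Sum.inr (Sum.inr j)) = B j := fun j => by rw [hW]; rfl
  refine group_bound e hδ grp (S := Sum.elim S F) (x := x) (y := y) (p := p) (q := q) hO ?_ ?_ ?_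
    hx hy hRc ?_
  · rintro (i | j)
    · exact (hS i).1
    · exact (hF j).2.1.curv
  · rintro (i | j) k hk z hz a b c
    · have hne : Sum.inl i ≠ k := by
        rintro rfl
        exact hk rfl
      refine (hS i).2.1 z ?_ a b c
      rw [Submodule.mem_orthogonal]
      intro u hu
      rw [← wU] at hu
      exact hO.1 _ _ hne u hu z hz
    · have hne1 : Sum.inr (Sum.inl j) ≠ k := by
        rintro rfl
        exact hk rfl
      have hne2 : Sum.inr (Sum.inr j) ≠ k := by
        rintro rfl
        exact hk rfl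
      refine (hF j).2.1.lives z ?_ a b c
      rw [Submodule.mem_orthogonal]
      intro u hu
      obtain ⟨v, hv, w, hw, rfl⟩ := Submodule.mem_sup.1 hu
      rw [← wA] at hv
      rw [← wB] at hw
      rw [inner_add_left, hO.1 _ _ hne1 v hv z hz, hO.1 _ _ hne2 w hw z hz, add_zero]
  · rintro (i | j) e' col hcol
    · exact herP_of_her col (her_of_hopf e' (hS i).1 (hS i).2.1 (hS i).2.2)
    · obtain ⟨h3, hP, hneg⟩ := hF j
      have hP' : PairTensor (W (Sum.inr (Sum.inl j))) (W (Sum.inr (Sum.inr j))) (F j) := by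
        rw [wA, wB]
        exact hP
      refine herP_pair (pairT_cp e' hcol hO.1 hP') ?_ ?_
      · intro u v hu hv
        change 0 ≤ ev4 (cp e' (negT (F j))) u v u v
        rw [ev_cp e' hP.curv]
        have h1 := vec_mem e' hcol hu
        have h2 := vec_mem e' hcol hv
        rw [wA] at h1
        rw [wB] at h2
        have := hneg _ h1 _ h2
        linarith
      · refine (card_col e' hcol _).trans ?_
        rw [wA]
        exact h3
  · intro a b c d
    rw [hR, Fintype.sum_sum_type]
    rfl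

end point

/-- Integrated form. -/
theorem field_bq {m : ℕ} {M : Type} [MeasurableSpace M] (μ : MeasureTheory.Measure M)
    (K : CurvField m M) (δ : M → ℝ) (h : ∀ p, 0 ≤ δ p ∧ BiquadBlocks (δ p) (K.R p)) :
    0 ≤ (-1) ^ m * ∫ p, K.gb p ∂μ ∧
      (MeasureTheory.Integrable K.gb μ →
        MeasureTheory.Integrable (fun p => roundGB m (δ p)) μ →
        ∫ p, roundGB m (δ p) ∂μ ≤ (-1) ^ m * ∫ p, K.gb p ∂μ) := by
  rw [← MeasureTheory.integral_const_mul]
  constructor
  · refine MeasureTheory.integral_nonneg fun p => ?_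
    exact (roundGB_nonneg (h p).1).trans (bq_bound (K.e p) (h p).1 (h p).2)
  · intro hi hj
    exact MeasureTheory.integral_mono hj (hi.const_mul _) fun p =>
      bq_bound (K.e p) (h p).1 (h p).2

end Pool.Agent.T9h14.BQ
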